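import Pool.Agent.Lib.helper63.KyFan

set_option autoImplicit false

namespace Pool.Agent.Lib.MP_802e1f_co

open Finset Pool.Agent.Lib.helper63.Chains

section Lip

variable {α : Type*} [DecidableEq α]

theorem lip_union (f : Finset α → ℝ) (R : Finset α)
    (hL : ∀ S g, |f (insert g S) - f S| ≤ 1) (hR : ∀ g, g ∉ R → ∀ S, f S = f (insert g S))
    (S U : Finset α) : |f (S ∪ U) - f S| ≤ (U ∩ R).card := by
  induction U using Finset.induction_on with
  | empty => simp
  | insert g U hg ih =>
    rw [Finset.union_insert]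
    by_cases h : g ∈ R
    · rw [Finset.insert_inter_of_mem h,
        Finset.card_insert_of_notMem (fun e => hg (Finset.mem_inter.1 e).1)]
      have h1 := hL (S ∪ U) g
      have h2 := abs_sub_le (f (insert g (S ∪ U))) (f (S ∪ U)) (f S)
      push_cast
      linarith
    · rw [Finset.insert_inter_of_notMem h, ← hR g h]
      exact ih

theorem lip_sub (f : Finset α → ℝ) (R : Finset α)
    (hL : ∀ S g, |f (insert g S) - f S| ≤ 1) (hR : ∀ g, g ∉ R → ∀ S, f S = f (insert g S))
    {S T : Finset α} (h : S ⊆ T) : |f T - f S| ≤ ((T \ S) ∩ R).card := by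
  have := lip_union f R hL hR S (T \ S)
  rwa [Finset.union_sdiff_of_subset h] at this

end Lip

variable {α : Type} [DecidableEq α] [Fintype α] {n : ℕ}

/-- vertices: agent, copy, plus set, minus set, sign -/
abbrev Vx (n : ℕ) (α : Type) := Fin n × Bool × Finset α × Finset α × Bool

def cls (v : Vx n α) : ℕ := 2 * v.1.val + (if v.2.1 then 1 else 0)
def sgn (v : Vx n α) : Bool := v.2.2.2.2
def pos (v : Vx n α) : Finset α := v.2.2.1
def neg (v : Vx n α) : Finset α := v.2.2.2.1
def flip (v : Vx n α) : Vx n α := (v.1, v.2.1, v.2.2.2.1, v.2.2.1, !v.2.2.2.2)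

def val (f : Fin n → Finset α → ℝ) (i : Fin n) (P Q : Finset α) : ℝ :=
  f i Qᶜ - f i Q + (f i P - f i Pᶜ)

def Good (f : Fin n → Finset α → ℝ) (R : Fin n → Finset α) (C : ℕ) (v : Vx n α) : Prop :=
  (R v.1 \ (pos v ∪ neg v)).card ≤ C ∧
    (sgn v = true → 0 ≤ val f v.1 (pos v) (neg v)) ∧ (sgn v = false → val f v.1 (pos v) (neg v) ≤ 0)

def Cx (f : Fin n → Finset α → ℝ) (R : Fin n → Finset α) (C : ℕ) (Fp Fn : Finset α)
    (s : Finset (Vx n α)) : Prop :=
  (∀ v ∈ s, Good f R C v ∧ Disjoint (pos v) Fp ∧ Disjoint (neg v) Fn) ∧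
    Set.InjOn cls (↑s : Set (Vx n α)) ∧
    ∀ v ∈ s, ∀ w ∈ s, Disjoint (pos v) (neg w)

theorem Cx_down (f : Fin n → Finset α → ℝ) (R : Fin n → Finset α) (C : ℕ) (Fp Fn : Finset α) :
    Down (Cx f R C Fp Fn) := by
  intro s v hs
  refine ⟨fun w hw => hs.1 w (Finset.mem_of_mem_erase hw),
    hs.2.1.mono (by intro x hx; exact Finset.mem_of_mem_erase hx), ?_⟩
  intro x hx y hy
  exact hs.2.2 x (Finset.mem_of_mem_erase hx) y (Finset.mem_of_mem_erase hy)

omit [Fintype α] in
theorem dead_count (R : Fin n → Finset α) (t C : ℕ) (hC : 2 * t ≤ C + 1)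
    (ht : ∀ g, (univ.filter (fun i => g ∈ R i)).card ≤ t) (Z : Finset α) :
    2 * (univ.filter (fun i => ¬ (R i ∩ Z).card ≤ C)).card ≤ Z.card := by
  have h1 : ∑ i : Fin n, (R i ∩ Z).card = ∑ g ∈ Z, (univ.filter (fun i => g ∈ R i)).card := by
    have : ∀ i : Fin n, (R i ∩ Z).card = ∑ g ∈ Z, if g ∈ R i then 1 else 0 := by
      intro i
      rw [← Finset.card_filter, Finset.filter_mem_eq_inter, Finset.inter_comm]
    simp_rw [this, Finset.card_filter]
    exact Finset.sum_comm
  have h2 : ∑ g ∈ Z, (univ.filter (fun i => g ∈ R i)).card ≤ Z.card * t := by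
    have := Finset.sum_le_card_nsmul Z (fun g => (univ.filter (fun i => g ∈ R i)).card) t
      (fun g _ => ht g)
    simpa using this
  set D := univ.filter (fun i => ¬ (R i ∩ Z).card ≤ C) with hD
  have h3 : D.card * (C + 1) ≤ ∑ i ∈ D, (R i ∩ Z).card := by
    have := Finset.card_nsmul_le_sum D (fun i => (R i ∩ Z).card) (C + 1) (by
      intro i hi
      have := (Finset.mem_filter.1 hi).2
      omega)
    simpa using this
  have h4 : ∑ i ∈ D, (R i ∩ Z).card ≤ ∑ i : Fin n, (R i ∩ Z).card :=
    Finset.sum_le_sum_of_subset (Finset.subset_univ _)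
  have h5 : D.card * (C + 1) ≤ Z.card * t := by omega
  rcases Nat.eq_zero_or_pos t with rfl | hpos
  · have : D.card = 0 := by
      rcases Nat.eq_zero_or_pos D.card with h | h
      · exact h
      · nlinarith
    omega
  · have : (2 * D.card) * t ≤ Z.card * t := by nlinarith
    exact Nat.le_of_mul_le_mul_right this hpos

theorem acyc_base (f : Fin n → Finset α → ℝ) (R : Fin n → Finset α) (t C : ℕ)
    (hC : 2 * t ≤ C + 1) (ht : ∀ g, (univ.filter (fun i => g ∈ R i)).card ≤ t)
    (Fp Fn : Finset α) (hF : ∀ g, g ∈ Fp ∨ g ∈ Fn) :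
    Acyc (Cx f R C Fp Fn) (2 * n - (Fp ∩ Fn).card) := by
  classical
  set A : Finset (Vx n α) :=
    univ.filter (fun v => Good f R C v ∧ Disjoint (pos v) Fp ∧ Disjoint (neg v) Fn) with hA
  refine ((acyc_join cls A).congr ?_).mono ?_
  · intro s
    constructor
    · rintro ⟨h1, h2⟩
      refine ⟨fun v hv => (Finset.mem_filter.1 (h1 hv)).2, h2, ?_⟩
      intro v hv w hw
      have a := (Finset.mem_filter.1 (h1 hv)).2.2.1
      have b := (Finset.mem_filter.1 (h1 hw)).2.2.2
      rw [Finset.disjoint_left] at a b ⊢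
      intro g hg hg'
      rcases hF g with h | h
      · exact a hg h
      · exact b hg' h
    · rintro ⟨h1, h2, -⟩
      exact ⟨fun v hv => Finset.mem_filter.2 ⟨Finset.mem_univ _, h1 v hv⟩, h2⟩
  · have hd := dead_count R t C hC ht (Fp ∩ Fn)
    have hc := Finset.card_filter_add_card_filter_not (s := (univ : Finset (Fin n)))
      (fun i => (R i ∩ (Fp ∩ Fn)).card ≤ C)
    rw [Finset.card_univ, Fintype.card_fin] at hc
    set L := univ.filter (fun i => (R i ∩ (Fp ∩ Fn)).card ≤ C) with hL
    let e : Fin n × Bool → ℕ := fun p => 2 * p.1.val + (if p.2 then 1 else 0)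
    have einj : Function.Injective e := by
      rintro ⟨i, b⟩ ⟨j, c⟩ h
      simp only [e] at h
      have : i.val = j.val ∧ b = c := by
        cases b <;> cases c <;> simp at h ⊢ <;> omega
      rw [Fin.ext this.1, this.2]
    have hsub : (L ×ˢ (univ : Finset Bool)).image e ⊆ A.image cls := by
      intro y hy
      obtain ⟨⟨i, b⟩, hp, rfl⟩ := Finset.mem_image.1 hy
      have hi : (R i ∩ (Fp ∩ Fn)).card ≤ C := (Finset.mem_filter.1 (Finset.mem_product.1 hp).1).2
      refine Finset.mem_image.2 ⟨(i, b, Fpᶜ, Fnᶜ, decide (0 ≤ val f i Fpᶜ Fnᶜ)), ?_, rfl⟩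
      refine Finset.mem_filter.2 ⟨Finset.mem_univ _, ⟨?_, ?_, ?_⟩, disjoint_compl_left,
        disjoint_compl_left⟩
      · have : R i \ (Fpᶜ ∪ Fnᶜ) = R i ∩ (Fp ∩ Fn) := by
          ext g
          simp
        simpa [pos, neg, this] using hi
      · intro h
        simpa [sgn, pos, neg] using h
      · intro h
        have : ¬ 0 ≤ val f i Fpᶜ Fnᶜ := by simpa [sgn] using h
        exact (not_le.1 this).le
    have := Finset.card_le_card hsub
    rw [Finset.card_image_of_injective _ einj, Finset.card_product, Finset.card_univ,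
      Fintype.card_bool] at this
    omega

theorem acyc_all (f : Fin n → Finset α → ℝ) (R : Fin n → Finset α) (t C : ℕ)
    (hC : 2 * t ≤ C + 1) (ht : ∀ g, (univ.filter (fun i => g ∈ R i)).card ≤ t)
    (U : Finset α) : ∀ Fp Fn : Finset α, (∀ g, g ∉ U → g ∈ Fp ∨ g ∈ Fn) →
    Acyc (Cx f R C Fp Fn) (2 * n - (Fp ∩ Fn).card) := by
  induction U using Finset.induction_on with
  | empty =>
    intro Fp Fn hF
    exact acyc_base f R t C hC ht Fp Fn (fun g => hF g (Finset.notMem_empty g))
  | insert g U hg ih =>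
    intro Fp Fn hF
    by_cases hgF : g ∈ Fp ∨ g ∈ Fn
    · refine ih Fp Fn ?_
      intro x hx
      by_cases e : x = g
      · rw [e]; exact hgF
      · exact hF x (by simp [e, hx])
    · have hgp : g ∉ Fp := fun h => hgF (Or.inl h)
      have hgn : g ∉ Fn := fun h => hgF (Or.inr h)
      have a1 := ih (insert g Fp) Fn (by
        intro x hx
        by_cases e : x = g
        · left; simp [e]
        · rcases hF x (by simp [e, hx]) with h | h
          · left; simp [h]
          · right; exact h)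
      have a2 := ih Fp (insert g Fn) (by
        intro x hx
        by_cases e : x = g
        · right; simp [e]
        · rcases hF x (by simp [e, hx]) with h | h
          · left; exact h
          · right; simp [h])
      have a0 := ih (insert g Fp) (insert g Fn) (by
        intro x hx
        by_cases e : x = g
        · left; simp [e]
        · rcases hF x (by simp [e, hx]) with h | h
          · left; simp [h]
          · right; simp [h])
      rw [Finset.insert_inter_of_notMem hgn] at a1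
      rw [Finset.inter_insert_of_notMem hgp] at a2
      rw [← Finset.insert_inter_distrib,
        Finset.card_insert_of_notMem (fun e => hgp (Finset.mem_inter.1 e).1)] at a0
      refine Acyc.union ?_ ?_ (Cx_down f R C _ _) (Cx_down f R C _ _) a1 a2
        (a0.mono (by omega))
      · intro s
        constructor
        · rintro ⟨h1, h2, h3⟩
          by_cases hex : ∃ v ∈ s, g ∈ pos v
          · right
            obtain ⟨v, hv, hgv⟩ := hex
            refine ⟨fun w hw => ⟨(h1 w hw).1, (h1 w hw).2.1, ?_⟩, h2, h3⟩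
            rw [Finset.disjoint_insert_right]
            exact ⟨fun h => Finset.disjoint_left.1 (h3 v hv w hw) hgv h, (h1 w hw).2.2⟩
          · left
            refine ⟨fun w hw => ⟨(h1 w hw).1, ?_, (h1 w hw).2.2⟩, h2, h3⟩
            rw [Finset.disjoint_insert_right]
            exact ⟨fun h => hex ⟨w, hw, h⟩, (h1 w hw).2.1⟩
        · rintro (⟨h1, h2, h3⟩ | ⟨h1, h2, h3⟩)
          · exact ⟨fun w hw => ⟨(h1 w hw).1, (Finset.disjoint_insert_right.1 (h1 w hw).2.1).2,
              (h1 w hw).2.2⟩, h2, h3⟩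
          · exact ⟨fun w hw => ⟨(h1 w hw).1, (h1 w hw).2.1,
              (Finset.disjoint_insert_right.1 (h1 w hw).2.2).2⟩, h2, h3⟩
      · intro s
        constructor
        · rintro ⟨h1, h2, h3⟩
          exact ⟨⟨fun w hw => ⟨(h1 w hw).1, (h1 w hw).2.1,
              (Finset.disjoint_insert_right.1 (h1 w hw).2.2).2⟩, h2, h3⟩,
            ⟨fun w hw => ⟨(h1 w hw).1, (Finset.disjoint_insert_right.1 (h1 w hw).2.1).2,
              (h1 w hw).2.2⟩, h2, h3⟩⟩
        · rintro ⟨⟨h1, h2, h3⟩, ⟨h4, -, -⟩⟩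
          exact ⟨fun w hw => ⟨(h1 w hw).1, (h1 w hw).2.1, (h4 w hw).2.2⟩, h2, h3⟩

theorem round_bound (f : Finset α → ℝ) (R : Finset α)
    (hL : ∀ S g, |f (insert g S) - f S| ≤ 1) (hR : ∀ g, g ∉ R → ∀ S, f S = f (insert g S))
    (P Q S : Finset α) (hP : P ⊆ S) (hQ : Disjoint S Q) :
    |2 * (f S - f Sᶜ) - (f Qᶜ - f Q + (f P - f Pᶜ))| ≤ 2 * (R \ (P ∪ Q)).card := by
  have hQ1 : S ⊆ Qᶜ := Finset.subset_compl_iff_disjoint_right.2 hQ
  have hQ2 : Q ⊆ Sᶜ := Finset.subset_compl_iff_disjoint_right.2 hQ.symm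
  have hP2 : Sᶜ ⊆ Pᶜ := Finset.compl_subset_compl.2 hP
  have b1 := lip_sub f R hL hR hP
  have b2 := lip_sub f R hL hR hP2
  have b3 := lip_sub f R hL hR hQ1
  have b4 := lip_sub f R hL hR hQ2
  have e2 : Pᶜ \ Sᶜ = S \ P := by
    ext g
    simp [and_comm]
  have e4 : Sᶜ \ Q = Qᶜ \ S := by
    ext g
    simp [and_comm]
  rw [e2] at b2
  rw [e4] at b4
  have hc : ((S \ P) ∩ R).card + ((Qᶜ \ S) ∩ R).card ≤ (R \ (P ∪ Q)).card := by
    rw [← Finset.card_union_of_disjoint]
    · apply Finset.card_le_card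
      intro g hg
      have := Finset.disjoint_left.1 hQ
      have hP' := @hP g
      have := @this g
      simp only [Finset.mem_union, Finset.mem_inter, Finset.mem_sdiff, Finset.mem_compl] at hg ⊢
      tauto
    · rw [Finset.disjoint_left]
      intro g h1 h2
      simp only [Finset.mem_inter, Finset.mem_sdiff, Finset.mem_compl] at h1 h2
      tauto
  have hc' : (((S \ P) ∩ R).card : ℝ) + ((Qᶜ \ S) ∩ R).card ≤ (R \ (P ∪ Q)).card := by
    exact_mod_cast hc
  rw [abs_le] at b1 b2 b3 b4 ⊢
  constructor <;> linarith [b1.1, b1.2, b2.1, b2.2, b3.1, b3.2, b4.1, b4.2]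

theorem main (f : Fin n → Finset α → ℝ) (R : Fin n → Finset α) (t C : ℕ) (hC : 2 * t ≤ C + 1)
    (hL : ∀ i S g, |f i (insert g S) - f i S| ≤ 1)
    (hR : ∀ i g, g ∉ R i → ∀ S, f i S = f i (insert g S))
    (ht : ∀ g, (univ.filter (fun i => g ∈ R i)).card ≤ t) :
    ∃ S : Finset α, ∀ i, |f i S - f i Sᶜ| ≤ C := by
  classical
  have hac := acyc_all f R t C hC ht univ ∅ ∅ (fun g hg => absurd (Finset.mem_univ g) hg)
  simp only [Finset.inter_self, Finset.card_empty, Nat.sub_zero] at hac
  obtain ⟨s, hs, hcard, halt⟩ := exists_alt (Cx f R C ∅ ∅) (2 * n) cls sgn flip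
    (by rintro ⟨i, d, P, Q, b⟩; simp [flip]) (fun v => rfl) (fun v => rfl) (by
      rintro s ⟨h1, h2, h3⟩
      refine ⟨?_, ?_, ?_⟩
      · intro v hv
        obtain ⟨w, hw, rfl⟩ := Finset.mem_image.1 hv
        obtain ⟨⟨g1, g2, g3⟩, -, -⟩ := h1 w hw
        refine ⟨⟨?_, ?_, ?_⟩, Finset.disjoint_empty_right _, Finset.disjoint_empty_right _⟩
        · have : pos (flip w) ∪ neg (flip w) = pos w ∪ neg w := Finset.union_comm _ _
          rw [this]
          exact g1
        · intro h
          have h' : sgn w = false := by simpa [sgn, flip] using h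
          have := g3 h'
          simp only [val, flip, pos, neg] at this ⊢
          linarith
        · intro h
          have h' : sgn w = true := by simpa [sgn, flip] using h
          have := g2 h'
          simp only [val, flip, pos, neg] at this ⊢
          linarith
      · intro v hv v' hv' e
        obtain ⟨w, hw, rfl⟩ := Finset.mem_image.1 (Finset.mem_coe.1 hv)
        obtain ⟨w', hw', rfl⟩ := Finset.mem_image.1 (Finset.mem_coe.1 hv')
        rw [h2 (Finset.mem_coe.2 hw) (Finset.mem_coe.2 hw') e]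
      · intro v hv v' hv'
        obtain ⟨w, hw, rfl⟩ := Finset.mem_image.1 hv
        obtain ⟨w', hw', rfl⟩ := Finset.mem_image.1 hv'
        exact (h3 w' hw' w hw).symm)
    ⟨by simp, by simp, by simp⟩ (fun s hs => hs.2.1) hac
  obtain ⟨h1, h2, h3⟩ := hs
  have himg : s.image cls = Finset.range (2 * n) := by
    apply Finset.eq_of_subset_of_card_le
    · intro y hy
      obtain ⟨v, -, rfl⟩ := Finset.mem_image.1 hy
      have := v.1.2
      rw [Finset.mem_range]
      unfold cls
      split_ifs <;> omega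
    · rw [Finset.card_image_of_injOn h2, hcard, Finset.card_range]
  refine ⟨s.biUnion pos, ?_⟩
  intro i
  have hi := i.2
  obtain ⟨u, hu, hcu⟩ := Finset.mem_image.1
    (himg ▸ (Finset.mem_range.2 (by omega) : 2 * i.val ∈ Finset.range (2 * n)))
  obtain ⟨w, hw, hcw⟩ := Finset.mem_image.1
    (himg ▸ (Finset.mem_range.2 (by omega) : 2 * i.val + 1 ∈ Finset.range (2 * n)))
  have hui : u.1 = i := by
    apply Fin.ext
    unfold cls at hcu
    split_ifs at hcu <;> omega
  have hwi : w.1 = i := by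
    apply Fin.ext
    unfold cls at hcw
    split_ifs at hcw <;> omega
  have hfil : (s.filter (fun x => cls x < cls w)).card =
      (s.filter (fun x => cls x < cls u)).card + 1 := by
    rw [← Finset.card_insert_of_notMem (a := u) (by simp)]
    congr 1
    ext x
    simp only [Finset.mem_filter, Finset.mem_insert]
    constructor
    · rintro ⟨hx, hlt⟩
      by_cases e : cls x = cls u
      · exact Or.inl (h2 (Finset.mem_coe.2 hx) (Finset.mem_coe.2 hu) e)
      · exact Or.inr ⟨hx, by omega⟩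
    · rintro (rfl | ⟨hx, hlt⟩)
      · exact ⟨hu, by omega⟩
      · exact ⟨hx, by omega⟩
  have hsg : sgn w = !sgn u := by
    rw [halt u hu, halt w hw, hfil]
    rcases Nat.even_or_odd (s.filter (fun x => cls x < cls u)).card with h | h
    · have h' := Nat.not_odd_iff_even.2 h
      have h'' := h.add_one
      simp [h', h'']
    · have h' := Nat.not_odd_iff_even.2 h.add_one
      simp [h', h]
  have bound : ∀ v ∈ s, v.1 = i →
      |2 * (f i (s.biUnion pos) - f i (s.biUnion pos)ᶜ) - val f i (pos v) (neg v)| ≤ 2 * C := by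
    intro v hv hvi
    have hb := round_bound (f i) (R i) (hL i) (hR i) (pos v) (neg v) (s.biUnion pos)
      (Finset.subset_biUnion_of_mem pos hv)
      (by
        rw [Finset.disjoint_biUnion_left]
        intro x hx
        exact h3 x hx v hv)
    have hg := (h1 v hv).1.1
    rw [hvi] at hg
    have hg' : ((R i \ (pos v ∪ neg v)).card : ℝ) ≤ C := by exact_mod_cast hg
    unfold val
    linarith
  have bu := abs_le.1 (bound u hu hui)
  have bw := abs_le.1 (bound w hw hwi)
  obtain ⟨-, gu1, gu2⟩ := (h1 u hu).1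
  obtain ⟨-, gw1, gw2⟩ := (h1 w hw).1
  rw [hui] at gu1 gu2
  rw [hwi] at gw1 gw2
  rw [abs_le]
  cases hsu : sgn u
  · have a := gu2 hsu
    have b := gw1 (by rw [hsg, hsu]; rfl)
    constructor <;> linarith [bu.1, bu.2, bw.1, bw.2]
  · have a := gu1 hsu
    have b := gw2 (by rw [hsg, hsu]; rfl)
    constructor <;> linarith [bu.1, bu.2, bw.1, bw.2]

theorem beck_fiala (t m n : ℕ) (f : Fin n → Finset (Fin m) → ℝ)
    (hL : ∀ i : Fin n, ∀ S : Finset (Fin m), ∀ g : Fin m, |f i (insert g S) - f i S| ≤ 1)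
    (ht : ∀ g : Fin m,
      {i : Fin n | ∃ S : Finset (Fin m), f i S ≠ f i (insert g S)}.ncard ≤ t) :
    ∃ S : Finset (Fin m), ∀ i : Fin n, |f i S - f i Sᶜ| ≤ ((2 * t - 1 : ℕ) : ℝ) := by
  classical
  refine main f (fun i => univ.filter (fun g => ∃ S, f i S ≠ f i (insert g S))) t (2 * t - 1)
    (by omega) hL ?_ ?_
  · intro i g hg S
    by_contra h
    exact hg (Finset.mem_filter.2 ⟨Finset.mem_univ _, S, h⟩)
  · intro g
    have := ht g
    rw [Set.ncard_eq_toFinset_card'] at this
    refine le_trans (le_of_eq ?_) this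
    congr 1
    ext i
    simp

end Pool.Agent.Lib.MP_802e1f_co
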